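import Mathlib
import Pool.Agent.H71R3.DS

/-!
# Direct sums of free groups as subgroups
-/

set_option autoImplicit false

namespace Pool.Agent.Y961.ZI

open Pool.Agent.H71R3.Zafran SemidirectProduct

/-- the free group of rank two -/
abbrev F2 : Type := FreeGroup (Fin 2)

/-- the shift automorphisms of the free group on the integers -/
def shf : Multiplicative ℤ →* MulAut (FreeGroup ℤ) where
  toFun n := FreeGroup.freeGroupCongr (Equiv.addRight n.toAdd)
  map_one' := by
    refine MulEquiv.ext fun x => ?_
    change FreeGroup.map (fun y : ℤ => y + 0) x = x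
    simp
  map_mul' a b := by
    refine MulEquiv.ext fun x => ?_
    change FreeGroup.map (fun y : ℤ => y + (a.toAdd + b.toAdd)) x =
      FreeGroup.map (fun y : ℤ => y + a.toAdd) (FreeGroup.map (fun y : ℤ => y + b.toAdd) x)
    rw [FreeGroup.map.comp]
    congr 2
    funext y
    simp only [Function.comp_apply]
    ring

/-- the conjugates of the second generator by the powers of the first one -/
def eZ : FreeGroup ℤ →* F2 :=
  FreeGroup.lift fun i => FreeGroup.of 0 ^ i * FreeGroup.of 1 * (FreeGroup.of 0 ^ i)⁻¹

/-- the way back -/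
def theta : F2 →* FreeGroup ℤ ⋊[shf] Multiplicative ℤ :=
  FreeGroup.lift ![inr (Multiplicative.ofAdd 1), inl (FreeGroup.of 0)]

theorem theta_eZ (x : FreeGroup ℤ) : theta (eZ x) = inl x := by
  have h : theta.comp eZ = inl := by
    refine FreeGroup.ext_hom _ _ fun i => ?_
    rw [MonoidHom.comp_apply, eZ, FreeGroup.lift_apply_of]
    rw [map_mul, map_mul, map_inv, map_zpow]
    have h0 : theta (FreeGroup.of 0) = inr (Multiplicative.ofAdd 1) := by
      rw [theta, FreeGroup.lift_apply_of]; rfl
    have h1 : theta (FreeGroup.of 1) = inl (FreeGroup.of 0) := by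
      rw [theta, FreeGroup.lift_apply_of]; rfl
    rw [h0, h1, ← map_zpow, ← map_inv, ← inl_aut]
    congr 1
    change FreeGroup.map (fun y : ℤ => y + ((Multiplicative.ofAdd (1 : ℤ)) ^ i).toAdd)
      (FreeGroup.of 0) = _
    rw [FreeGroup.map.of]
    simp
  exact DFunLike.congr_fun h x

theorem eZ_inj : Function.Injective eZ := by
  intro x y h
  have := congrArg theta h
  rw [theta_eZ, theta_eZ] at this
  exact inl_injective this

/-- free groups of finite rank are subgroups of the free group of rank two -/
def eN (N : ℕ) : FreeGroup (Fin N) →* F2 := eZ.comp (FreeGroup.map fun i : Fin N => (i.val : ℤ))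

theorem eN_inj (N : ℕ) (hN : 0 < N) : Function.Injective (eN N) := by
  have hne : Nonempty (Fin N) := ⟨⟨0, hN⟩⟩
  refine eZ_inj.comp ?_
  have hi : Function.Injective fun i : Fin N => (i.val : ℤ) := by
    intro i j h
    have h' : (i.val : ℤ) = j.val := h
    exact Fin.ext (by exact_mod_cast h')
  have hl : Function.LeftInverse (FreeGroup.map (Function.invFun fun i : Fin N => (i.val : ℤ)))
      (FreeGroup.map fun i : Fin N => (i.val : ℤ)) := by
    intro x
    rw [FreeGroup.map.comp, Function.invFun_comp hi]
    exact FreeGroup.map.id x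
  exact hl.injective

/-- homomorphisms between direct sums -/
def dsMap {A B : ℕ → Type} [∀ m, Group (A m)] [∀ m, Group (B m)] (f : ∀ m, A m →* B m) :
    DS A →* DS B where
  toFun x := ⟨fun m => f m (x.1 m), by
    refine Set.Finite.subset (fin_supp x) fun m hm h => hm ?_
    change f m (x.1 m) = 1
    rw [h, map_one]⟩
  map_one' := by
    refine Subtype.ext (funext fun m => ?_)
    exact map_one (f m)
  map_mul' x y := by
    refine Subtype.ext (funext fun m => ?_)
    exact map_mul (f m) _ _

theorem dsMap_inj {A B : ℕ → Type} [∀ m, Group (A m)] [∀ m, Group (B m)] (f : ∀ m, A m →* B m)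
    (hf : ∀ m, Function.Injective (f m)) : Function.Injective (dsMap f) := by
  intro x y h
  refine Subtype.ext (funext fun m => hf m ?_)
  exact congrFun (congrArg Subtype.val h) m

/-! ### A finitely generated group -/

/-- the shift -/
def sh : Equiv.Perm (ℤ × F2) := (Equiv.addRight (1 : ℤ)).prodCongr (Equiv.refl F2)

/-- the action of the functions by left multiplication -/
def act : (ℤ → F2) →* Equiv.Perm (ℤ × F2) where
  toFun x :=
    { toFun := fun p => (p.1, x p.1 * p.2)
      invFun := fun p => (p.1, (x p.1)⁻¹ * p.2)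
      left_inv := fun p => by simp
      right_inv := fun p => by simp }
  map_one' := by
    refine Equiv.ext fun p => ?_
    change (p.1, 1 * p.2) = p
    rw [one_mul]
  map_mul' x y := by
    refine Equiv.ext fun p => ?_
    change (p.1, x p.1 * y p.1 * p.2) = (p.1, x p.1 * (y p.1 * p.2))
    rw [mul_assoc]

theorem act_apply (x : ℤ → F2) (p : ℤ × F2) : act x p = (p.1, x p.1 * p.2) := rfl

theorem act_inj : Function.Injective act := by
  intro x y h
  funext k
  have := congrArg (fun e : Equiv.Perm (ℤ × F2) => (e (k, 1)).2) h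
  simpa [act_apply] using this

theorem conj_sh (x : ℤ → F2) : sh * act x * sh⁻¹ = act fun k => x (k - 1) := by
  refine Equiv.ext fun p => ?_
  obtain ⟨k, w⟩ := p
  have h1 : sh⁻¹ (k, w) = (k - 1, w) := by
    rw [Equiv.Perm.inv_eq_iff_eq]
    change (k, w) = (k - 1 + 1, w)
    rw [sub_add_cancel]
  rw [Equiv.Perm.mul_apply, Equiv.Perm.mul_apply, h1]
  change (k - 1 + 1, x (k - 1) * w) = (k, x (k - 1) * w)
  rw [sub_add_cancel]

/-- a group with three generators -/
def GW : Subgroup (Equiv.Perm (ℤ × F2)) :=
  Subgroup.closure {sh, act (Pi.mulSingle 0 (FreeGroup.of 0)), act (Pi.mulSingle 0 (FreeGroup.of 1))}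

theorem fg_GW : Group.FG GW := by
  rw [Group.fg_iff_subgroup_fg, Subgroup.fg_iff]
  exact ⟨_, rfl, by simp⟩

theorem mem_zero (w : F2) : act (Pi.mulSingle 0 w) ∈ GW := by
  have h : (⊤ : Subgroup F2) ≤ GW.comap (act.comp (MonoidHom.mulSingle (fun _ : ℤ => F2) 0)) := by
    rw [← FreeGroup.closure_range_of, Subgroup.closure_le]
    rintro _ ⟨i, rfl⟩
    change act (Pi.mulSingle 0 (FreeGroup.of i)) ∈ GW
    apply Subgroup.subset_closure
    fin_cases i
    · exact Or.inr (Or.inl rfl)
    · exact Or.inr (Or.inr rfl)
  exact h (Subgroup.mem_top w)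

theorem mem_nat (k : ℕ) (w : F2) : act (Pi.mulSingle (k : ℤ) w) ∈ GW := by
  induction k with
  | zero => exact mem_zero w
  | succ k ih =>
    have hs : sh ∈ GW := Subgroup.subset_closure (Or.inl rfl)
    have h : sh * act (Pi.mulSingle (k : ℤ) w) * sh⁻¹ ∈ GW :=
      GW.mul_mem (GW.mul_mem hs ih) (GW.inv_mem hs)
    rw [conj_sh] at h
    have e : (fun j : ℤ => (Pi.mulSingle (k : ℤ) w : ℤ → F2) (j - 1)) =
        Pi.mulSingle ((k + 1 : ℕ) : ℤ) w := by
      funext j
      by_cases hj : j = ((k + 1 : ℕ) : ℤ)
      · subst hj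
        rw [Pi.mulSingle_eq_same]
        have : (((k + 1 : ℕ) : ℤ) - 1) = (k : ℤ) := by push_cast; ring
        rw [this, Pi.mulSingle_eq_same]
      · rw [Pi.mulSingle_eq_of_ne hj, Pi.mulSingle_eq_of_ne]
        intro h2
        apply hj
        push_cast
        linarith
    rwa [e] at h

theorem mem_of_supp (N : ℕ) : ∀ z : ℤ → F2, (∀ k, z k ≠ 1 → 0 ≤ k ∧ k < N) → act z ∈ GW := by
  classical
  induction N with
  | zero =>
    intro z hz
    have : z = 1 := by
      funext k
      by_contra h
      have := hz k h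
      have h2 := this.2
      push_cast at h2
      omega
    rw [this, map_one]
    exact GW.one_mem
  | succ N ih =>
    intro z hz
    have e : z = Function.update z N 1 * Pi.mulSingle (N : ℤ) (z N) := by
      funext j
      by_cases hj : j = (N : ℤ)
      · subst hj
        simp
      · rw [Pi.mul_apply, Function.update_of_ne hj, Pi.mulSingle_eq_of_ne hj, mul_one]
    rw [e, map_mul]
    refine GW.mul_mem (ih _ fun k hk => ?_) (mem_nat N _)
    by_cases hkN : k = (N : ℤ)
    · subst hkN
      simp at hk
    · rw [Function.update_of_ne hkN] at hk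
      have := hz k hk
      push_cast at this
      omega

/-- extension of a sequence by `1` -/
def e0 : DS (fun _ : ℕ => F2) →* (ℤ → F2) where
  toFun x := fun k => if 0 ≤ k then x.1 k.toNat else 1
  map_one' := by
    funext k
    by_cases hk : 0 ≤ k
    · rw [if_pos hk]; rfl
    · rw [if_neg hk]; rfl
  map_mul' x y := by
    funext k
    by_cases hk : 0 ≤ k
    · simp only [Pi.mul_apply, if_pos hk]; rfl
    · simp only [Pi.mul_apply, if_neg hk, mul_one]

theorem e0_inj : Function.Injective e0 := by
  intro x y h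
  refine Subtype.ext (funext fun m => ?_)
  have := congrFun h (m : ℤ)
  change (if 0 ≤ (m : ℤ) then x.1 (m : ℤ).toNat else 1) =
    (if 0 ≤ (m : ℤ) then y.1 (m : ℤ).toNat else 1) at this
  rwa [if_pos (by positivity), if_pos (by positivity), Int.toNat_natCast] at this

theorem mem_e0 (x : DS (fun _ : ℕ => F2)) : act (e0 x) ∈ GW := by
  obtain ⟨K, hK⟩ := exists_bound x
  refine mem_of_supp K _ fun k hk => ?_
  by_cases h0 : 0 ≤ k
  · refine ⟨h0, ?_⟩
    by_contra hlt
    apply hk
    change (if 0 ≤ k then x.1 k.toNat else 1) = 1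
    rw [if_pos h0]
    exact hK _ (by omega)
  · exfalso
    apply hk
    change (if 0 ≤ k then x.1 k.toNat else 1) = 1
    rw [if_neg h0]

/-- the direct sum is a subgroup of a finitely generated group -/
theorem exists_fg : ∃ (G : Type) (_ : Group G), Group.FG G ∧
    ∃ j : DS (fun _ : ℕ => F2) →* G, Function.Injective j := by
  refine ⟨GW, inferInstance, fg_GW, (act.comp e0).codRestrict GW mem_e0, ?_⟩
  intro x y h
  have := congrArg Subtype.val h
  exact e0_inj (act_inj this)

end Pool.Agent.Y961.ZI
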