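import Mathlib
import Pool.Agent.H71R3.HasF

/-!
# Extension by zero of the elements of the Fourier-Stieltjes algebra of a subgroup
-/

set_option autoImplicit false

namespace Pool.Agent.Y961.ZI

open Pool.Agent.H71R3.FS

variable {G H : Type} [Group G] [Group H] (j : H →* G)

/-- representatives of the left cosets of the image of `j` -/
noncomputable def rp (g : G) : G := Quotient.out (QuotientGroup.mk g : G ⧸ j.range)

theorem rp_mem (g : G) : (rp j g)⁻¹ * g ∈ j.range :=
  QuotientGroup.eq.1 (Quotient.out_eq (QuotientGroup.mk g : G ⧸ j.range))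

/-- the component in the subgroup -/
noncomputable def cc (g : G) : H := (rp_mem j g).choose

theorem cc_spec (g : G) : j (cc j g) = (rp j g)⁻¹ * g := (rp_mem j g).choose_spec

theorem rp_mul (g : G) (h : H) : rp j (g * j h) = rp j g := by
  unfold rp
  congr 1
  refine QuotientGroup.eq.2 ?_
  rw [mul_inv_rev, inv_mul_cancel_right]
  exact j.range.inv_mem ⟨h, rfl⟩

theorem cc_mul (hj : Function.Injective j) (g : G) (h : H) : cc j (g * j h) = cc j g * h := by
  apply hj
  rw [map_mul, cc_spec, cc_spec, rp_mul, mul_assoc]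

/-- the equivariant map to the subgroup -/
noncomputable def cq (x : G) : H := (cc j x⁻¹)⁻¹

theorem cq_mul (hj : Function.Injective j) (h : H) (x : G) : cq j (j h * x) = h * cq j x := by
  unfold cq
  rw [mul_inv_rev, ← map_inv, cc_mul j hj, mul_inv_rev, inv_inv]

open Classical in
/-- the extension by zero -/
noncomputable def ex (φ : H → ℂ) (g : G) : ℂ := if h : g ∈ j.range then φ h.choose else 0

theorem ex_apply (hj : Function.Injective j) (φ : H → ℂ) (h : H) : ex j φ (j h) = φ h := by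
  have hm : j h ∈ j.range := ⟨h, rfl⟩
  unfold ex
  rw [dif_pos hm]
  congr 1
  exact hj hm.choose_spec

theorem ex_zero (φ : H → ℂ) {g : G} (hg : g ∉ j.range) : ex j φ g = 0 := by
  unfold ex
  rw [dif_neg hg]

theorem ex_same (hj : Function.Injective j) (φ : H → ℂ) {g g' : G} (h : rp j g = rp j g') :
    ex j φ (g⁻¹ * g') = φ ((cc j g)⁻¹ * cc j g') := by
  have : g⁻¹ * g' = j ((cc j g)⁻¹ * cc j g') := by
    rw [map_mul, map_inv, cc_spec, cc_spec, h]
    group
  rw [this, ex_apply j hj]

theorem ex_ne (φ : H → ℂ) {g g' : G} (h : rp j g ≠ rp j g') : ex j φ (g⁻¹ * g') = 0 := by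
  refine ex_zero j φ fun hm => h ?_
  unfold rp
  congr 1
  exact QuotientGroup.eq.2 hm

open Classical in
theorem sq_coset (hj : Function.Injective j) (φ : H → ℂ) (a : G →₀ ℂ) (Q : G) :
    Pool.Agent.H71R3.FS.sq φ (Finsupp.mapDomain (cc j) (a.filter fun g => rp j g = Q))
      (Finsupp.mapDomain (cc j) (a.filter fun g => rp j g = Q)) =
    ∑ g ∈ a.support with rp j g = Q, ∑ g' ∈ a.support,
      starRingEnd ℂ (a g) * a g' * ex j φ (g⁻¹ * g') := by
  unfold Pool.Agent.H71R3.FS.sq
  rw [Finsupp.sum_mapDomain_index]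
  · rw [Finsupp.sum_filter_index, Finsupp.support_filter]
    refine Finset.sum_congr rfl fun g hg => ?_
    rw [Finsupp.sum_mapDomain_index (by simp) (by intro b m1 m2; ring),
      Finsupp.sum_filter_index, Finsupp.support_filter]
    have hgQ := (Finset.mem_filter.1 hg).2
    rw [← Finset.sum_filter_add_sum_filter_not a.support (fun g' => rp j g' = Q)
      (fun g' => starRingEnd ℂ (a g) * a g' * ex j φ (g⁻¹ * g'))]
    have h0 : ∑ g' ∈ a.support with ¬ rp j g' = Q,
        starRingEnd ℂ (a g) * a g' * ex j φ (g⁻¹ * g') = 0 := by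
      refine Finset.sum_eq_zero fun g' hg' => ?_
      rw [ex_ne j φ, mul_zero]
      rw [hgQ]
      exact fun h => (Finset.mem_filter.1 hg').2 h.symm
    rw [h0, add_zero]
    refine Finset.sum_congr rfl fun g' hg' => ?_
    rw [ex_same j hj φ (hgQ.trans (Finset.mem_filter.1 hg').2.symm)]
  · intro b
    simp
  · intro b m1 m2
    rw [← Finsupp.sum_add]
    refine Finsupp.sum_congr fun h _ => ?_
    rw [map_add]
    ring

theorem pd_ex (hj : Function.Injective j) {φ : H → ℂ} (hφ : PD φ) : PD (ex j φ) := by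
  classical
  refine ⟨fun g => ?_, fun a => ?_⟩
  · by_cases hg : g ∈ j.range
    · obtain ⟨h, rfl⟩ := hg
      rw [← map_inv, ex_apply j hj, ex_apply j hj, hφ.1]
    · rw [ex_zero j φ hg, ex_zero j φ fun h => hg (by simpa using j.range.inv_mem h), map_zero]
  · have h1 : Pool.Agent.H71R3.FS.sq (ex j φ) a a = ∑ Q ∈ a.support.image (rp j),
        Pool.Agent.H71R3.FS.sq φ (Finsupp.mapDomain (cc j) (a.filter fun g => rp j g = Q))
          (Finsupp.mapDomain (cc j) (a.filter fun g => rp j g = Q)) := by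
      simp only [sq_coset j hj]
      rw [Finset.sum_fiberwise_of_maps_to (g := rp j) (t := a.support.image (rp j))
        (fun g hg => Finset.mem_image_of_mem _ hg)]
      rfl
    rw [h1, Complex.re_sum]
    exact Finset.sum_nonneg fun Q _ => hφ.2 _

theorem pd_coef {K : Type} [SeminormedAddCommGroup K] [InnerProductSpace ℂ K]
    (π : H →* (K ≃ₗᵢ[ℂ] K)) (u : K) : PD fun h => inner ℂ u (π h u) := by
  have hi : ∀ (g : H) (x y : K), inner ℂ x (π g⁻¹ y) = inner ℂ (π g x) y := by
    intro g x y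
    rw [← LinearIsometryEquiv.inner_map_map (π g) x (π g⁻¹ y)]
    congr 1
    have : π g (π g⁻¹ y) = (π g * π g⁻¹) y := rfl
    rw [this, ← map_mul, mul_inv_cancel, map_one]
    rfl
  refine ⟨fun g => ?_, fun a => ?_⟩
  · change inner ℂ u (π g⁻¹ u) = starRingEnd ℂ (inner ℂ u (π g u))
    rw [hi, inner_conj_symm]
  · have h1 : Pool.Agent.H71R3.FS.sq (fun h => inner ℂ u (π h u)) a a = inner ℂ (ev π a u) (ev π a u) := by
      rw [ev_apply]
      unfold Pool.Agent.H71R3.FS.sq Finsupp.sum
      rw [sum_inner]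
      refine Finset.sum_congr rfl fun g _ => ?_
      rw [inner_sum]
      refine Finset.sum_congr rfl fun h _ => ?_
      rw [inner_smul_left, inner_smul_right]
      change starRingEnd ℂ (a g) * a h * inner ℂ u (π (g⁻¹ * h) u) = _
      rw [map_mul π, ← mul_assoc]
      congr 1
      have : (π g⁻¹ * π h) u = π g⁻¹ (π h u) := rfl
      rw [this, hi]
    rw [h1, inner_self_eq_norm_sq_to_K]
    have : ((‖ev π a u‖ : ℂ) ^ 2).re = ‖ev π a u‖ ^ 2 := by
      rw [← Complex.ofReal_pow, Complex.ofReal_re]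
    exact this.symm ▸ sq_nonneg _

/-- the restriction of an element of the group algebra -/
noncomputable def rs (hj : Function.Injective j) (a : G →₀ ℂ) : H →₀ ℂ :=
  a.comapDomain j hj.injOn

theorem sum_rs (hj : Function.Injective j) {F : Type*} [AddCommMonoid F] [Module ℂ F] (a : G →₀ ℂ)
    (f : G → F) (hf : ∀ g ∉ j.range, f g = 0) :
    (rs j hj a).sum (fun h c => c • f (j h)) = a.sum fun g c => c • f g := by
  unfold rs Finsupp.sum
  exact Finset.sum_preimage j a.support hj.injOn (fun g => a g • f g) fun g _ hg => by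
    rw [hf g (fun h => hg h), smul_zero]

theorem quad_le (hj : Function.Injective j) {K : Type} [NormedAddCommGroup K]
    [InnerProductSpace ℂ K] (π : H →* (K ≃ₗᵢ[ℂ] K)) (a : G →₀ ℂ) (u : K) :
    ‖inner ℂ u (ev π (rs j hj a) u)‖ ≤ ‖u‖ ^ 2 * maxNorm a := by
  obtain ⟨E, _, _, σ, ξ, hξ⟩ := gns_vector _ (pd_ex j hj (pd_coef π u))
  have h1 := coef_le σ a ξ ξ
  simp only [hξ] at h1
  have h2 : a.sum (fun g c => c * ex j (fun h => inner ℂ u (π h u)) g) =
      inner ℂ u (ev π (rs j hj a) u) := by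
    rw [inner_ev]
    have := sum_rs j hj a (ex j (fun h => inner ℂ u (π h u))) (fun g hg => ex_zero j _ hg)
    simp only [smul_eq_mul, ex_apply j hj] at this
    exact this.symm
  rw [h2] at h1
  have h3 : ‖ξ‖ * ‖ξ‖ = ‖u‖ ^ 2 := by
    have h4 := hξ 1
    rw [map_one, show (1 : G) = j 1 from (map_one j).symm, ex_apply j hj, map_one] at h4
    have h5 : inner ℂ ξ ((1 : E ≃ₗᵢ[ℂ] E) ξ) = inner ℂ ξ ξ := rfl
    have h6 : inner ℂ u ((1 : K ≃ₗᵢ[ℂ] K) u) = inner ℂ u u := rfl
    rw [h5, h6, inner_self_eq_norm_sq_to_K, inner_self_eq_norm_sq_to_K] at h4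
    apply Complex.ofReal_injective
    rw [Complex.ofReal_mul, Complex.ofReal_pow, ← pow_two]
    exact h4
  rw [h3] at h1
  exact h1

theorem norm_rs (hj : Function.Injective j) (a : G →₀ ℂ) :
    maxNorm (rs j hj a) ≤ 2 * maxNorm a := by
  have hm := maxNorm_nonneg a
  refine maxNorm_le fun K _ _ _ π => ?_
  set T := ev π (rs j hj a) with hT
  have hq : ∀ u : K, ‖inner ℂ (T u) u‖ ≤ ‖u‖ ^ 2 * maxNorm a := by
    intro u
    rw [norm_inner_symm]
    exact quad_le j hj π a u
  have key : ∀ x y : K, ‖x‖ = 1 → ‖y‖ = 1 → ‖inner ℂ y (T x)‖ ≤ 2 * maxNorm a := by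
    intro x y hx hy
    have hp := inner_map_polarization (T : K →ₗ[ℂ] K) y x
    simp only [ContinuousLinearMap.coe_coe] at hp
    rw [norm_inner_symm, hp, norm_div]
    have e4 : ‖(4 : ℂ)‖ = 4 := by norm_num
    rw [e4, div_le_iff₀ (by norm_num)]
    have p1 := hq (y + x)
    have p2 := hq (y - x)
    have p3 := hq (y + Complex.I • x)
    have p4 := hq (y - Complex.I • x)
    have q1 := parallelogram_law_with_norm ℂ y x
    have q2 := parallelogram_law_with_norm ℂ y (Complex.I • x)
    have hI : ‖Complex.I • x‖ = 1 := by rw [norm_smul, Complex.norm_I, one_mul, hx]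
    rw [hI, hy] at q2
    rw [hx, hy] at q1
    have n1 := norm_sub_le (inner ℂ (T (y + x)) (y + x) - inner ℂ (T (y - x)) (y - x) +
      Complex.I * inner ℂ (T (y + Complex.I • x)) (y + Complex.I • x))
      (Complex.I * inner ℂ (T (y - Complex.I • x)) (y - Complex.I • x))
    have n2 := norm_add_le (inner ℂ (T (y + x)) (y + x) - inner ℂ (T (y - x)) (y - x))
      (Complex.I * inner ℂ (T (y + Complex.I • x)) (y + Complex.I • x))
    have n3 := norm_sub_le (inner ℂ (T (y + x)) (y + x)) (inner ℂ (T (y - x)) (y - x))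
    rw [norm_mul, Complex.norm_I, one_mul] at n1 n2
    nlinarith
  refine opNorm_le_of_inner _ _ (by positivity) fun x y => ?_
  by_cases hx : x = 0
  · simp [hx]
  by_cases hy : y = 0
  · simp [hy]
  have nx : 0 < ‖x‖ := norm_pos_iff.2 hx
  have ny : 0 < ‖y‖ := norm_pos_iff.2 hy
  have h := key (((‖x‖⁻¹ : ℝ) : ℂ) • x) (((‖y‖⁻¹ : ℝ) : ℂ) • y)
    (by rw [norm_smul, Complex.norm_real, norm_inv, norm_norm, inv_mul_cancel₀ nx.ne'])
    (by rw [norm_smul, Complex.norm_real, norm_inv, norm_norm, inv_mul_cancel₀ ny.ne'])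
  rw [map_smul, inner_smul_left, inner_smul_right, norm_mul, norm_mul, Complex.conj_ofReal,
    Complex.norm_real, Complex.norm_real, norm_inv, norm_norm, norm_inv, norm_norm,
    inv_mul_le_iff₀ ny, inv_mul_le_iff₀ nx] at h
  calc ‖inner ℂ y (T x)‖ ≤ _ := h
    _ = _ := by ring

/-- the conditional expectation -/
theorem exists_cond (hj : Function.Injective j) : ∃ T : CStar G →L[ℂ] CStar H,
    (∀ h, T (dir (j h)) = dir h) ∧ ∀ g ∉ j.range, T (dir g) = 0 := by
  classical
  let f : G → CStar H := fun g => if h : g ∈ j.range then dir h.choose else 0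
  have f1 : ∀ h, f (j h) = dir h := by
    intro h
    have hm : j h ∈ j.range := ⟨h, rfl⟩
    change (if h' : j h ∈ j.range then (dir h'.choose : CStar H) else 0) = dir h
    rw [dif_pos hm, hj hm.choose_spec]
  have f2 : ∀ g ∉ j.range, f g = 0 := by
    intro g hg
    change (if h' : g ∈ j.range then (dir h'.choose : CStar H) else 0) = 0
    rw [dif_neg hg]
  obtain ⟨T, hT, -⟩ := exists_map f 2 (by norm_num) fun a => by
    rw [← sum_rs j hj a f f2]
    simp only [f1]
    rw [← inc_eq_sum, norm_inc]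
    exact norm_rs j hj a
  exact ⟨T, fun h => by rw [hT, f1], fun g hg => by rw [hT, f2 g hg]⟩

end Pool.Agent.Y961.ZI
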