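import Mathlib
import Pool.Agent.Y961.ZI.Low

/-!
# A family of embeddings with almost disjoint images
-/

set_option autoImplicit false

namespace Pool.Agent.Y961.ZI

open Pool.Agent.H71R3.FS Pool.Agent.H71R3.Zafran Pool.Agent.H71R3 Filter Topology UniformSpace

/-! ### Small averages -/

theorem lt_inj {α : Type*} [DecidableEq α] :
    Function.Injective (Kesten.lt : α × Bool → FreeGroup α) := by
  intro s t h
  have := congrArg FreeGroup.toWord h
  unfold Kesten.lt at this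
  simpa [FreeGroup.toWord_mk] using this

theorem avg_count (m : ℕ) (f : Lt m → Lt m → ℂ) (w : Fm m) (hf1 : ∀ i j, ‖f i j‖ ≤ 1)
    (hf : ∀ i j, Kesten.lt i * Kesten.lt j * w ≠ 1 → f i j = 0) :
    ‖avg m f‖ ≤ ((Fintype.card (Lt m) : ℝ))⁻¹ := by
  classical
  set N : ℝ := (Fintype.card (Lt m) : ℝ) with hN
  have hNpos : 0 < N := by rw [hN]; exact_mod_cast card_pos m
  have h1 : ∀ i, ‖∑ j, f i j‖ ≤ 1 := by
    intro i
    have h2 : ∀ j, ‖f i j‖ ≤ if Kesten.lt i * Kesten.lt j * w = 1 then (1 : ℝ) else 0 := by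
      intro j
      by_cases h : Kesten.lt i * Kesten.lt j * w = 1
      · rw [if_pos h]; exact hf1 i j
      · rw [if_neg h, hf i j h, norm_zero]
    refine (norm_sum_le_of_le _ fun j _ => h2 j).trans ?_
    rw [Finset.sum_boole]
    have h3 : (Finset.univ.filter fun j => Kesten.lt i * Kesten.lt j * w = 1).card ≤ 1 := by
      rw [Finset.card_le_one]
      intro a ha b hb
      have ha' := (Finset.mem_filter.1 ha).2
      have hb' := (Finset.mem_filter.1 hb).2
      apply lt_inj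
      have h4 := ha'.trans hb'.symm
      exact mul_left_cancel (mul_right_cancel h4)
    exact_mod_cast h3
  unfold avg
  rw [norm_mul, norm_inv, Complex.norm_natCast, ← hN]
  refine mul_le_of_le_one_right (by positivity) ?_
  have h5 : ∀ i, ‖((Fintype.card (Lt m) : ℂ))⁻¹ * ∑ j, f i j‖ ≤ N⁻¹ := by
    intro i
    rw [norm_mul, norm_inv, Complex.norm_natCast, ← hN]
    exact mul_le_of_le_one_right (by positivity) (h1 i)
  refine (norm_sum_le_of_le _ fun i _ => h5 i).trans (le_of_eq ?_)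
  rw [Finset.sum_const, Finset.card_univ, nsmul_eq_mul, ← hN, mul_inv_cancel₀ hNpos.ne']

theorem inv_card_small (δ : ℝ) (hδ : 0 < δ) : ∃ m0 : ℕ, ∀ m, m0 ≤ m →
    ((Fintype.card (Lt m) : ℝ))⁻¹ ≤ δ * (1 / 4) ^ m / 2 := by
  obtain ⟨m1, hm1⟩ := (tendsto_pow_atTop_atTop_of_one_lt (show (1 : ℝ) < 2 by norm_num)).eventually
    (eventually_ge_atTop (2 / δ)) |>.exists_forall_of_atTop
  refine ⟨max m1 3, fun m hm => ?_⟩
  have hm1' := hm1 m (le_trans (le_max_left _ _) hm)
  have hm2' : 3 ≤ m := le_trans (le_max_right _ _) hm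
  set N : ℝ := (Fintype.card (Lt m) : ℝ) with hN
  have hNpos : 0 < N := by rw [hN]; exact_mod_cast card_pos m
  have hNval : 2 ^ (m ^ 2) ≤ N := by
    rw [hN, Fintype.card_prod, Fintype.card_fin, Fintype.card_bool]
    push_cast
    calc (2 : ℝ) ^ (m ^ 2) ≤ 2 ^ ((m + 1) ^ 2) :=
          pow_le_pow_right₀ (by norm_num) (Nat.pow_le_pow_left (by omega) 2)
      _ ≤ _ := by
          have : (0 : ℝ) < 2 ^ ((m + 1) ^ 2) := by positivity
          linarith
  have h1 : (2 : ℝ) ^ m * 4 ^ m ≤ N := by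
    refine le_trans ?_ hNval
    have : (4 : ℝ) ^ m = 2 ^ (2 * m) := by rw [pow_mul]; norm_num
    rw [this, ← pow_add]
    refine pow_le_pow_right₀ (by norm_num) ?_
    nlinarith
  have h2 : 2 / δ * 4 ^ m ≤ N := (mul_le_mul_of_nonneg_right hm1' (by positivity)).trans h1
  rw [inv_le_comm₀ hNpos (by positivity)]
  refine le_trans (le_of_eq ?_) h2
  have : (1 / 4 : ℝ) ^ m = (4 ^ m)⁻¹ := by rw [one_div, inv_pow]
  rw [this]
  field_simp

/-! ### Almost disjoint sequences -/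

/-- the code of the beginning of length `m` of `t` -/
def sq' (t : ℕ → Bool) (m : ℕ) : ℕ := Encodable.encode (List.ofFn fun i : Fin m => t i)

theorem sq'_eq {t t' : ℕ → Bool} {m m' : ℕ} (h : sq' t m = sq' t' m') :
    m = m' ∧ ∀ i < m, t i = t' i := by
  have h1 := Encodable.encode_injective h
  have h2 : m = m' := by
    have := congrArg List.length h1
    simpa using this
  subst h2
  refine ⟨rfl, fun i hi => ?_⟩
  have h3 := List.ofFn_injective h1
  exact congrFun h3 ⟨i, hi⟩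

theorem sq'_inj (t : ℕ → Bool) : Function.Injective (sq' t) := fun _ _ h => (sq'_eq h).1

theorem sq'_ne {t t' : ℕ → Bool} (h : t ≠ t') : ∃ m0, ∀ m, m0 ≤ m → ∀ m', sq' t' m' ≠ sq' t m := by
  obtain ⟨i, hi⟩ := Function.ne_iff.1 h
  refine ⟨i + 1, fun m hm m' h2 => hi ?_⟩
  exact (sq'_eq h2.symm).2 i (by omega)

/-- the embedding of the direct sum on the coordinates `s 0, s 1, ...` -/
noncomputable def place (s : ℕ → ℕ) : DS (fun _ : ℕ => F2) →* DS (fun _ : ℕ => F2) where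
  toFun x := ⟨Function.extend s x.1 1, by
    classical
    refine ((fin_supp x).image s).subset fun k hk => ?_
    by_contra h
    apply hk
    by_cases hm : ∃ m, s m = k
    · obtain ⟨m, rfl⟩ := hm
      have hm1 : ∀ m', s m' = s m → x.1 m' = 1 := fun m' h' => by
        by_contra h2
        exact h ⟨m', h2, h'⟩
      rw [Function.extend_def]
      split_ifs with h3
      · exact hm1 _ h3.choose_spec
      · rfl
    · rw [Function.extend_apply' _ _ _ hm]; rfl⟩
  map_one' := Subtype.ext (Function.extend_one s)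
  map_mul' x y := Subtype.ext (by
    have := Function.extend_mul s x.1 y.1 (1 : ℕ → F2) 1
    rw [mul_one] at this
    exact this)

theorem place_apply {s : ℕ → ℕ} (hs : Function.Injective s) (x : DS (fun _ : ℕ => F2)) (m : ℕ) :
    (place s x).1 (s m) = x.1 m := hs.extend_apply _ _ _

theorem place_apply' (s : ℕ → ℕ) (x : DS (fun _ : ℕ => F2)) {k : ℕ} (hk : ∀ m, s m ≠ k) :
    (place s x).1 k = 1 := Function.extend_apply' _ _ _ fun ⟨m, hm⟩ => hk m hm

theorem place_inj {s : ℕ → ℕ} (hs : Function.Injective s) : Function.Injective (place s) := by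
  intro x y h
  refine Subtype.ext (funext fun m => ?_)
  rw [← place_apply hs x m, ← place_apply hs y m, h]

/-- the embedding given by `t` -/
noncomputable def Jt (t : ℕ → Bool) : GG →* DS (fun _ : ℕ => F2) :=
  (place (sq' t)).comp (dsMap fun m => eN (2 ^ ((m + 1) ^ 2)))

theorem Jt_inj (t : ℕ → Bool) : Function.Injective (Jt t) :=
  (place_inj (sq'_inj t)).comp (dsMap_inj _ fun m => eN_inj _ (by positivity))

/-- almost disjointness -/
theorem Jt_disj {t t' : ℕ → Bool} (h : t ≠ t') : ∃ m0, ∀ m, m0 ≤ m → ∀ x y : GG,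
    Jt t y = Jt t' x → y.1 m = 1 := by
  obtain ⟨m0, hm0⟩ := sq'_ne h
  refine ⟨m0, fun m hm x y hxy => ?_⟩
  have h1 : (Jt t y).1 (sq' t m) = eN (2 ^ ((m + 1) ^ 2)) (y.1 m) := place_apply (sq'_inj t) _ m
  have h2 : (Jt t' x).1 (sq' t m) = 1 := place_apply' _ _ (hm0 m hm)
  rw [hxy, h2] at h1
  exact (map_eq_one_iff _ (eN_inj _ (by positivity))).1 h1.symm

variable {G : Type} [Group G]

/-- the extensions by zero along the other embeddings have small averages -/
theorem small_other (j : DS (fun _ : ℕ => F2) →* G) (hj : Function.Injective j) {t t' : ℕ → Bool}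
    (h : t ≠ t') (R : CStar GG →L[ℂ] ℂ)
    (hR1 : ∀ x y : GG, j (Jt t y) = j (Jt t' x) → ‖R (dir y)‖ ≤ 1)
    (hR0 : ∀ y : GG, j (Jt t y) ∉ (j.comp (Jt t')).range → R (dir y) = 0) (δ : ℝ) (hδ : 0 < δ) :
    ∃ m0 : ℕ, ∀ m, m0 ≤ m → ∀ y,
      ‖avg m fun i j => R (dir (sl m i * sl m j * y))‖ ≤ δ * (1 / 4) ^ m / 2 := by
  obtain ⟨m1, hm1⟩ := Jt_disj h
  obtain ⟨m2, hm2⟩ := inv_card_small δ hδ
  refine ⟨max m1 m2, fun m hm y => ?_⟩
  refine (avg_count m _ (y.1 m) (fun i k => ?_) fun i k hik => ?_).trans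
    (hm2 m (le_trans (le_max_right _ _) hm))
  · by_cases hr : j (Jt t (sl m i * sl m k * y)) ∈ (j.comp (Jt t')).range
    · obtain ⟨x, hx⟩ := hr
      exact hR1 x _ hx.symm
    · rw [hR0 _ hr, norm_zero]
      exact zero_le_one
  · refine hR0 _ fun hr => hik ?_
    obtain ⟨x, hx⟩ := hr
    have h1 := hm1 m (le_trans (le_max_left _ _) hm) x (sl m i * sl m k * y) (hj hx.symm)
    have h2 : (sl m i * sl m k * y).1 m = Kesten.lt i * Kesten.lt k * y.1 m := by
      change (em m (Kesten.lt i)).1 m * (em m (Kesten.lt k)).1 m * y.1 m = _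
      rw [em_same, em_same]
    rw [h2] at h1
    exact h1

theorem small_add (R S : CStar GG →L[ℂ] ℂ)
    (hR : ∀ δ : ℝ, 0 < δ → ∃ m0 : ℕ, ∀ m, m0 ≤ m → ∀ y,
      ‖avg m fun i j => R (dir (sl m i * sl m j * y))‖ ≤ δ * (1 / 4) ^ m / 2)
    (hS : ∀ δ : ℝ, 0 < δ → ∃ m0 : ℕ, ∀ m, m0 ≤ m → ∀ y,
      ‖avg m fun i j => S (dir (sl m i * sl m j * y))‖ ≤ δ * (1 / 4) ^ m / 2) :
    ∀ δ : ℝ, 0 < δ → ∃ m0 : ℕ, ∀ m, m0 ≤ m → ∀ y,
      ‖avg m fun i j => (R + S) (dir (sl m i * sl m j * y))‖ ≤ δ * (1 / 4) ^ m / 2 := by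
  intro δ hδ
  obtain ⟨m1, hm1⟩ := hR (δ / 2) (by positivity)
  obtain ⟨m2, hm2⟩ := hS (δ / 2) (by positivity)
  refine ⟨max m1 m2, fun m hm y => ?_⟩
  have h1 := hm1 m (le_trans (le_max_left _ _) hm) y
  have h2 := hm2 m (le_trans (le_max_right _ _) hm) y
  have e : (avg m fun i j => (R + S) (dir (sl m i * sl m j * y))) =
      (avg m fun i j => R (dir (sl m i * sl m j * y))) +
        avg m fun i j => S (dir (sl m i * sl m j * y)) := by
    unfold avg
    simp only [add_apply, Finset.sum_add_distrib, mul_add]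
  rw [e]
  refine (norm_add_le _ _).trans ?_
  linarith

/-- functionals with small averages -/
def Small (R : CStar GG →L[ℂ] ℂ) : Prop :=
  ∀ δ : ℝ, 0 < δ → ∃ m0 : ℕ, ∀ m, m0 ≤ m → ∀ y,
    ‖avg m fun i j => R (dir (sl m i * sl m j * y))‖ ≤ δ * (1 / 4) ^ m / 2

theorem Small.add {R S : CStar GG →L[ℂ] ℂ} (hR : Small R) (hS : Small S) : Small (R + S) :=
  small_add R S hR hS

theorem Small.zero : Small 0 := by
  intro δ hδ
  refine ⟨0, fun m _ y => ?_⟩
  have e : (avg m fun i j => (0 : CStar GG →L[ℂ] ℂ) (dir (sl m i * sl m j * y))) = 0 := by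
    unfold avg
    simp
  rw [e, norm_zero]
  positivity

theorem Small.smul {R : CStar GG →L[ℂ] ℂ} (hR : Small R) (c : ℂ) : Small (c • R) := by
  intro δ hδ
  obtain ⟨m0, hm0⟩ := hR (δ / (‖c‖ + 1)) (by positivity)
  refine ⟨m0, fun m hm y => ?_⟩
  have e : (avg m fun i j => (c • R) (dir (sl m i * sl m j * y))) =
      (avg m fun i j => R (dir (sl m i * sl m j * y))) * c := by
    rw [← avg_mul]
    unfold avg
    simp only [smul_apply, smul_eq_mul, mul_comm c]
  rw [e, norm_mul]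
  have h1 := hm0 m hm y
  have h2 : ‖avg m fun i j => R (dir (sl m i * sl m j * y))‖ * ‖c‖ ≤
      δ / (‖c‖ + 1) * (1 / 4) ^ m / 2 * ‖c‖ := mul_le_mul_of_nonneg_right h1 (norm_nonneg _)
  refine h2.trans ?_
  have h3 : δ / (‖c‖ + 1) * (1 / 4) ^ m / 2 * ‖c‖ =
      (δ * (1 / 4) ^ m / 2) * (‖c‖ / (‖c‖ + 1)) := by
    field_simp
  rw [h3]
  refine mul_le_of_le_one_right (by positivity) ?_
  rw [div_le_one (by positivity)]
  linarith [norm_nonneg c]

end Pool.Agent.Y961.ZI
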